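import Pool.Agent.V11219.DeeMain

/-!
# Numerical and homological equivalence on products with varieties which degenerate simultaneously

Let `W` be a Weil cohomology theory with algebraically closed coefficients (de Rham cohomology with
complex coefficients in characteristic zero, crystalline cohomology with coefficients in the algebraic
closure of the fraction field of the Witt vectors) on a class of smooth proper varieties, and let `Γ` be a
group which acts on the cohomology of the varieties `X_i`, `Y_b` and `Z` and their products with the
formal properties of the action of a Galois group, where a subgroup of finite index acts on the
classes of algebraic cycles by powers of the character `χ` (`GaloisVar`; for instance the complex points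
of the Mumford-Tate group, or the fundamental group of the base, if the varieties are very general
members of families over the same base, with `χ = 1`).

All varieties `X_i` (`i` in a finite set) and `Y_b` (`b` in a finite set) have odd dimension, numerical
and homological equivalence coincide for them (for example curves, hypersurfaces, complete
intersections), and their transcendental cohomology `T(X_i)`, `T(Y_b)` (the orthogonal complement of the
algebraic classes) is concentrated in the middle degree; the `Y_b` have the same dimension, the
`T(X_i)` are irreducible under all subgroups of finite index and no two of them are isomorphic up to
scalars. **Nothing else is assumed on the `Y_b`**: they may be arbitrary curves, for instance with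
arbitrary endomorphisms of the Jacobians. Nothing at all is assumed on `Z`.

Let `N` be the set of the `g ∈ Γ` with `χ(g) = 1` which act trivially on the cohomology of `Z` and with
`(g - 1) ^ 2 = 0` on all `T(X_j)` and all `T(Y_b)` (inertia at the places `v` at which `Z` has good
reduction and the `X_j`, `Y_b` are curves with stable reduction, or hypersurfaces of odd dimension whose
reduction has ordinary double points; **all** of them may have bad reduction at `v`). Assume for
every `i`:

* **(small defects)** some `g ∈ N` has defects on `T(X_i)` without a common prime factor, or the defect
  two; here the defects of `g` are the rank of `g - 1` on `T(X_i)` and the multiplicities of the nonzero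
  eigenvalues of `(g - 1) (g' - 1)` on `T(X_i)`, for `g' ∈ N`. (Or: the conjugates of some `g ∈ N` act
  irreducibly on `T(X_i)` and the defects of all elements of `N` have no common prime factor.)
* **(larger rank)** for some `g ∈ N` the rank of `g - 1` on `T(X_i)` is larger than the sum of the
  ranks of `g - 1` on the `T(Y_b)`.

Let `Z₁` be a product of `Z` with arbitrary powers of the `Y_b`, and `T` a product of `Z₁` with arbitrary
powers of the `X_i`; suppose that numerical and homological equivalence coincide for the powers of
each single `X_i`. Then **numerical and homological equivalence coincide for `T` if and only if they
coincide for `Z₁`**. As for smooth proper schemes the noncommutative standard conjecture of type D for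
`perf_dg(T)` is equivalent to the conjecture D for `T`, this means: the noncommutative conjecture D for
`perf_dg(T)` is equivalent to the one for `perf_dg(Z₁)`. No positivity or Hodge standard
conjecture and no Künneth type conjecture is assumed, and nothing is assumed on `Z`; for example `Z₁`
may be an abelian variety or a surface, for which D is known in characteristic zero, and the `X_i` may
be curves or hypersurfaces of any odd dimension (satisfying D for their powers).

Proof. Let `𝔤` be the Lie algebra of the tuples of operators on the `T(X_j)` and on the sum of the
`T(Y_b)` which respect the forms and kill all the multilinear maps to the cohomology of `Z`, twisted by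
characters which are trivial on the kernel of `χ`, that are equivariant under a subgroup of finite index.
It contains the tuples `g - 1`, `g ∈ N`. By the theory of extremal elements of Lie algebras, Goursat's lemma
and the comparison of ranks `𝔤` contains the symplectic Lie algebra of each `T(X_i)` (see
`MP_3703a7_ag.SemistableProducts`), and by the first fundamental theorem an algebraic class on the
product of a power of `X_i` with `A` is a combination of products `m_l x_l` of algebraic classes `m_l` of the
power, linearly independent, with classes `x_l` of `A`. By the conjecture D for the power there are
algebraic classes dual to the `m_l`; so `x_l` is the push-forward of the product of the class with an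
algebraic class of the power, is algebraic, and is numerically equivalent to zero if the class is.
-/

universe u

namespace Pool.Agent.Results.MP_28af06_ag.SemistableProducts

open Pool.Agent.H914 Pool.Agent.H281R3.HT Pool.Agent.TH125.Gal Pool.Agent.V11219.Min
  Pool.Agent.V11219.Cls

/-- **Numerical and homological equivalence on products: comparison of ranks.** -/
theorem result {k : Type u} [Field k] {𝒱 : VarClass k} {ops : CycleOps 𝒱}
    (W : WeilCohomology.{u, 0} ops) [IsAlgClosed W.K] {Γ : Type} [Group Γ] (χ : CharOf W Γ)
    {ι β : Type} [Finite ι] [Fintype β] (X : ι → GVar W Γ) (Y : β → GVar W Γ) (d : ℕ)
    (Z : GVar W Γ) (h : FamilyOver χ X Y d Z) (hD : ∀ i, PowersHomEqNum (X i)) (S' : Set β)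
    (Z₁ : GVar W Γ) (hZ : Tower Y Z S' Z₁) (hs : ∀ S A, Tower X Z₁ S A → GaloisVar χ A)
    (S : Set ι) (T : GVar W Γ) (hT : Tower X Z₁ S T) :
    HomEqNum W T.X ↔ HomEqNum W Z₁.X :=
  dee_over' h hD hZ hs hT

end Pool.Agent.Results.MP_28af06_ag.SemistableProducts
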